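import Pool.Agent.H45.EW.Defs

set_option autoImplicit false

/-! # The positions which a reduction reads -/

namespace Pool.Agent.H45.EW

open Pool.Agent.H88.RO Tr Classical Pool.Agent.H65.EW

/-- a program run in the clocked universal machine -/
theorem eval_dec {O : Orc} {c : Prog} {v : Tr} {s : List Bool} {t T : ℕ} (ht : t ≤ T)
    (he : Eval O c v (enc s) t) :
    dec (snd (U O (code c) v ((size (code c) + 10) * T + 10))) = s := by
  rw [U_eq he (Nat.add_le_add_right (Nat.mul_le_mul_left _ ht) _), snd_node, dec_enc]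

theorem length_dec_U (O : Orc) (c v : Tr) (K : ℕ) : (dec (snd (U O c v K))).length ≤ K := by
  rcases U_cases (O := O) c v K with h | ⟨w, h⟩
  · rw [h]
    exact Nat.zero_le _
  · rw [h, snd_node, length_dec]
    have h1 := size_of_U h
    have h2 := len_le_size w
    omega

/-- If the candidate is total relative to `O` then a reduction reads few positions, and the only
answer which it can give is `w0`, for all oracles which agree with `O` on these positions. -/
theorem exists_read (e : Pre) (cf cg : Prog) : ∃ P : Polynomial ℕ, ∀ (O : Orc) (T b : ℕ),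
    Tot e O → ∃ (Q : Finset (List Bool)) (w0 : List Bool), Q.card ≤ P.eval T ∧
      ∀ O' : Orc, (∀ s ∈ Q, O' s = O s) → ∀ κ j, RedAt O' e κ j cf cg T b →
        w0.length = b ^ (κ + 1) ∧ O' (rg j b w0) = true := by
  refine ⟨(Polynomial.C (size (code cf) + 10) * Polynomial.X + 10) +
    (e.2.1.comp ((Polynomial.C (size (code cf) + 10) * Polynomial.X + 10) +
      e.2.2.comp (Polynomial.C (size (code cf) + 10) * Polynomial.X + 10)) +
      (Polynomial.C (size (code cg) + 10) * Polynomial.X + 10)), fun O T b hT => ?_⟩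
  set K := (size (code cf) + 10) * T + 10 with hK
  set K' := (size (code cg) + 10) * T + 10 with hK'
  set v := enc (List.replicate b true) with hv
  set s0 := dec (snd (U O (code cf) v K)) with hs0
  have hl0 : s0.length ≤ K := length_dec_U _ _ _ _
  obtain ⟨y0, hy0⟩ := hT s0
  obtain ⟨Q1, h11, _, h13⟩ := U_local O (code cf) v K
  obtain ⟨Q2, h21, _, h23⟩ := U_local O e.1 (node (enc s0) (enc y0))
    (e.2.1.eval (s0.length + y0.length))
  obtain ⟨Q3, h31, _, h33⟩ := U_local O (code cg) (node v (enc y0)) K'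
  have hcard : (Q1 ∪ (Q2 ∪ Q3)).card ≤ K + (e.2.1.eval (K + e.2.2.eval K) + K') := by
    refine (Finset.card_union_le _ _).trans (Nat.add_le_add h11
      ((Finset.card_union_le _ _).trans (Nat.add_le_add (h21.trans (poly_mono _ ?_)) h31)))
    have h1 := hy0.1
    have h2 := poly_mono e.2.2 hl0
    omega
  refine ⟨Q1 ∪ (Q2 ∪ Q3), dec (snd (U O (code cg) (node v (enc y0)) K')), ?_, ?_⟩
  · refine hcard.trans (le_of_eq ?_)
    simp [hK, hK']
  · intro O' hO' κ j hred
    obtain ⟨s, ⟨t, ht, he⟩, h2⟩ := hred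
    have e1 := h13 O' (fun q hq => hO' q (Finset.mem_union_left _ hq))
    have e2 := h23 O' (fun q hq => hO' q (Finset.mem_union_right _ (Finset.mem_union_left _ hq)))
    have e3 := h33 O' (fun q hq => hO' q (Finset.mem_union_right _ (Finset.mem_union_right _ hq)))
    have hs : s0 = s := by
      rw [hs0, ← e1]
      exact eval_dec ht he
    obtain ⟨w, ⟨t', ht', he'⟩, hw1, hw2⟩ := h2 y0 (by
      rw [← hs]
      exact ⟨hy0.1, by rw [e2]; exact hy0.2⟩)
    have hw : dec (snd (U O (code cg) (node v (enc y0)) K')) = w := by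
      rw [← e3]
      exact eval_dec ht' he'
    rw [hw]
    exact ⟨hw1, hw2⟩

/-- solutions depend on a bounded part of the oracle -/
theorem sol_local (e : Pre) (x : List Bool) : ∃ m, ∀ O O' : Orc, Ag m O O' →
    ∀ y, Sol e O' x y ↔ Sol e O x y := by
  refine ⟨e.2.1.eval (x.length + e.2.2.eval x.length) + 1, fun O O' h y => ?_⟩
  unfold Sol
  refine and_congr_right fun hy => ?_
  have h1 : e.2.1.eval (x.length + y.length) ≤ e.2.1.eval (x.length + e.2.2.eval x.length) :=
    poly_mono _ (by omega)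
  rw [U_local' (O := O) (O' := O') _ _ _ (fun q hq => h q (by omega))]

theorem RedAt.mono {O : Orc} {e : Pre} {κ j : ℕ} {cf cg : Prog} {T T' b : ℕ} (h : T ≤ T')
    (hr : RedAt O e κ j cf cg T b) : RedAt O e κ j cf cg T' b := by
  obtain ⟨s, ⟨t, ht, h1⟩, h2⟩ := hr
  refine ⟨s, ⟨t, ht.trans h, h1⟩, fun y hy => ?_⟩
  obtain ⟨w, ⟨t', ht', h3⟩, h4⟩ := h2 y hy
  exact ⟨w, ⟨t', ht'.trans h, h3⟩, h4⟩

/-- the polynomial used in the condition on the time bounds -/
noncomputable def Pol (e : Pre) (cf cg : Prog) : Polynomial ℕ :=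
  (exists_read e cf cg).choose + 1 + Polynomial.X

/-- The reduction fails at some instance `1 ^ b`, `b ≥ N`, in every time `T` which is small. -/
def Kill (ℓ : ℕ → ℕ) {tr : Orc → List Bool → Prop} (e : Pre) (κ j : ℕ) (cf cg : Prog) (N : ℕ)
    (p : Cnd ℓ tr) : Prop :=
  ∃ b, N ≤ b ∧ ∀ T, (∀ m, b ^ (κ + 1) ≤ m → (Pol e cf cg).eval T < 2 ^ ℓ m) →
    ∀ O', Ag p.m p.O O' → ¬ RedAt O' e κ j cf cg T b

end Pool.Agent.H45.EW
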