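import Pool.Agent.H65.EW.Gen

set_option autoImplicit false

/-!
# Conditions

Legal oracles (`Legal l tr`), the positions `pw n w`, `cd w q`, `rg j b z` and `Loc tr` are those
of `Pool.Agent.H65.EW.Gen` and `Pool.Agent.H65.EW.Srch`.
-/

namespace Pool.Agent.H45.EW

open Pool.Agent.H88.RO Tr Classical Pool.Agent.H65.EW

/-- oracles -/
abbrev Orc := List Bool → Bool

/-- the constraint number `j`, with parameters `c = (κ, β)`, holds -/
def Sat (O : Orc) (j : ℕ) (c : ℕ × ℕ) : Prop :=
  ∀ b, c.2 ≤ b → ∃ z : List Bool, z.length = b ^ (c.1 + 1) ∧ O (rg j b z) = true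

/-- an index of a candidate for a total problem: a program, its clock, the length of solutions -/
abbrev Pre := Tr × Polynomial ℕ × Polynomial ℕ

/-- `y` is a solution of `x` for the candidate `e` -/
def Sol (e : Pre) (O : Orc) (x y : List Bool) : Prop :=
  y.length ≤ e.2.2.eval x.length ∧
    U O e.1 (node (enc x) (enc y)) (e.2.1.eval (x.length + y.length)) = node leaf tt

/-- the candidate is total -/
def Tot (e : Pre) (O : Orc) : Prop := ∀ x, ∃ y, Sol e O x y

/-- The reduction `(cf, cg)` to the candidate `e` works at the instance `1 ^ b` in time `T`, for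
the problem which asks for an element of length `b ^ (κ + 1)` of the region `(j, b)`. -/
def RedAt (O : Orc) (e : Pre) (κ j : ℕ) (cf cg : Prog) (T b : ℕ) : Prop :=
  ∃ s : List Bool, (∃ t ≤ T, Eval O cf (enc (List.replicate b true)) (enc s) t) ∧
    ∀ y, Sol e O s y → ∃ w : List Bool,
      (∃ t ≤ T, Eval O cg (node (enc (List.replicate b true)) (enc y)) (enc w) t) ∧
      w.length = b ^ (κ + 1) ∧ O (rg j b w) = true

/-- agreement below length `m` -/
def Ag (m : ℕ) (O O' : Orc) : Prop := ∀ s : List Bool, s.length < m → O' s = O s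

/-- conditions -/
structure Cnd (ℓ : ℕ → ℕ) (tr : Orc → List Bool → Prop) where
  /-- the oracle -/
  O : Orc
  /-- the length below which it is final -/
  m : ℕ
  /-- the constraints -/
  A : List (ℕ × ℕ)
  leg : Legal ℓ tr O
  sat : ∀ j c, A[j]? = some c → Sat O j c

variable {ℓ : ℕ → ℕ} {tr : Orc → List Bool → Prop}

/-- `q` extends `p` -/
structure Cnd.Le (p q : Cnd ℓ tr) : Prop where
  m : p.m ≤ q.m
  ag : Ag p.m p.O q.O
  A : p.A <+: q.A

/-- `p` forces the candidate `e` not to be total -/
def Dead (e : Pre) (p : Cnd ℓ tr) : Prop :=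
  ∃ x, ∀ O', Ag p.m p.O O' → ∀ y, ¬ Sol e O' x y

/-- `p` forces the candidate `e` to be total; the constraint number `j` was added for it, with
parameter `κ`; totality does not depend on this constraint -/
def Alive (e : Pre) (κ j : ℕ) (p : Cnd ℓ tr) : Prop :=
  ∃ β m0, m0 ≤ p.m ∧ m0 ≤ β ∧ p.A[j]? = some (κ, β) ∧
    ∀ O', Legal ℓ tr O' → Ag m0 p.O O' → (∀ i c, i < j → p.A[i]? = some c → Sat O' i c) → Tot e O'

/-! ### elementary facts -/

theorem parse_ones (b : ℕ) (u : List Bool) :
    parse (List.replicate b true ++ false :: u) = some (b, u) := by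
  induction b with
  | zero => rfl
  | succ b ih => simp [List.replicate_succ, parse, ih]

theorem rg_inj {j b j' b' : ℕ} {z z' : List Bool} (h : rg j b z = rg j' b' z') :
    j = j' ∧ b = b' ∧ z = z' := by
  have h1 : List.replicate j true ++ false :: (List.replicate b true ++ false :: z) =
      List.replicate j' true ++ false :: (List.replicate b' true ++ false :: z') := by
    simpa [rg] using h
  have h2 := congrArg parse h1
  rw [parse_ones, parse_ones] at h2
  simp only [Option.some.injEq, Prod.mk.injEq] at h2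
  have h3 := congrArg parse h2.2
  rw [parse_ones, parse_ones] at h3
  simp only [Option.some.injEq, Prod.mk.injEq] at h3
  exact ⟨h2.1, h3⟩

theorem Ag.refl (m : ℕ) (O : Orc) : Ag m O O := fun _ _ => rfl

theorem Ag.trans {m m' : ℕ} {O O' O'' : Orc} (h : Ag m O O') (h' : Ag m' O' O'') (hm : m ≤ m') :
    Ag m O O'' := fun s hs => (h' s (by omega)).trans (h s hs)

theorem Ag.mono {m m' : ℕ} {O O' : Orc} (h : Ag m' O O') (hm : m ≤ m') : Ag m O O' :=
  fun s hs => h s (by omega)

theorem Cnd.Le.refl (p : Cnd ℓ tr) : p.Le p := ⟨le_rfl, Ag.refl _ _, List.prefix_rfl⟩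

theorem Cnd.Le.trans {p q r : Cnd ℓ tr} (h : p.Le q) (h' : q.Le r) : p.Le r :=
  ⟨h.m.trans h'.m, h.ag.trans h'.ag h.m, h.A.trans h'.A⟩

end Pool.Agent.H45.EW
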