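import Pool.Agent.H45.EW.Cond

set_option autoImplicit false

/-! # The diagonal step -/

namespace Pool.Agent.H45.EW

open Pool.Agent.H88.RO Tr Classical Pool.Agent.H65.EW

variable {ℓ : ℕ → ℕ} {tr : Orc → List Bool → Prop}

/-- a string of length `n` such that neither `pos z` is read nor `z = w0` -/
theorem exists_free (Q : Finset (List Bool)) (n : ℕ) (w0 : List Bool)
    (pos : List Bool → List Bool) (hpos : Function.Injective pos) (h : Q.card + 1 < 2 ^ n) :
    ∃ z : List Bool, z.length = n ∧ pos z ∉ Q ∧ z ≠ w0 := by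
  by_contra hcon
  have h1 : ∀ v : Fin n → Bool, pos (List.ofFn v) ∈ insert (pos w0) Q := by
    intro v
    by_cases hq : pos (List.ofFn v) ∈ Q
    · exact Finset.mem_insert_of_mem hq
    · by_cases hw : List.ofFn v = w0
      · rw [hw]; exact Finset.mem_insert_self _ _
      · exact absurd ⟨List.ofFn v, by simp, hq, hw⟩ hcon
  have h2 : Fintype.card (Fin n → Bool) ≤ (insert (pos w0) Q).card := by
    rw [← Finset.card_univ]
    exact Finset.card_le_card_of_injOn (fun v => pos (List.ofFn v)) (fun v _ => h1 v)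
      (fun v _ v' _ hvv => List.ofFn_injective (hpos hvv))
  have h3 := Finset.card_insert_le (pos w0) Q
  rw [Fintype.card_fun, Fintype.card_bool, Fintype.card_fin] at h2
  omega

/-- the reduction `(cf, cg)` can be made wrong -/
theorem exists_kill (htr : Loc tr) (hℓ : ∀ n, ℓ n ≤ n) {e : Pre} {κ j : ℕ} {p : Cnd ℓ tr}
    (hp : Alive e κ j p) (cf cg : Prog) (N : ℕ) :
    ∃ q : Cnd ℓ tr, p.Le q ∧ Kill ℓ e κ j cf cg N q := by
  obtain ⟨β, m0, hm0, hβ, hA, htot⟩ := hp
  obtain ⟨b, hNb, hβb, hmb⟩ : ∃ b, N ≤ b ∧ β ≤ b ∧ p.m ≤ b :=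
    ⟨max N (max β p.m), le_max_left _ _, (le_max_left _ _).trans (le_max_right _ _),
      (le_max_right _ _).trans (le_max_right _ _)⟩
  let S : Set ℕ := {T | ∀ m, b ^ (κ + 1) ≤ m → (Pol e cf cg).eval T < 2 ^ ℓ m}
  have hev : ∀ T, (Pol e cf cg).eval T = (exists_read e cf cg).choose.eval T + 1 + T := by
    intro T; simp [Pol]
  have hbd : BddAbove S := by
    refine ⟨2 ^ ℓ (b ^ (κ + 1)), fun T hT => ?_⟩
    have h1 : (Pol e cf cg).eval T < 2 ^ ℓ (b ^ (κ + 1)) := hT _ le_rfl
    rw [hev] at h1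
    omega
  by_cases hS : S.Nonempty
  · have hT : sSup S ∈ S := Nat.sSup_mem hS hbd
    have hmax : ∀ T' ∈ S, T' ≤ sSup S := fun T' h => le_csSup hbd h
    generalize sSup S = T at hT hmax
    have hT' : ∀ m, b ^ (κ + 1) ≤ m → (exists_read e cf cg).choose.eval T + 1 + T < 2 ^ ℓ m := by
      intro m hm
      rw [← hev]
      exact hT m hm
    obtain ⟨O0, hO0, hag0, hemp, hoth, hnopw⟩ := exists_empty htr p.leg p.m j b hmb
    have htot0 : Tot e O0 := by
      refine htot O0 hO0 (hag0.mono hm0) ?_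
      intro i c hij hic b' hb'
      obtain ⟨z, hz, hz'⟩ := p.sat i c hic b' hb'
      refine ⟨z, hz, ?_⟩
      rw [hoth i b' z (by intro h; rw [Prod.mk.injEq] at h; omega)]
      exact hz'
    obtain ⟨Q, w0, hQc, hread⟩ := (exists_read e cf cg).choose_spec O0 T b htot0
    have hpos : Function.Injective (rg j b) := fun z z' h => (rg_inj h).2.2
    have hfree : Q.card + 1 < 2 ^ (b ^ (κ + 1)) := by
      have h1 := hT' _ le_rfl
      have h2 : 2 ^ ℓ (b ^ (κ + 1)) ≤ 2 ^ (b ^ (κ + 1)) :=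
        Nat.pow_le_pow_right (by norm_num) (hℓ _)
      omega
    obtain ⟨z, hzl, hzQ, hzw⟩ := exists_free Q (b ^ (κ + 1)) w0 (rg j b) hpos hfree
    have hlen : (rg j b z).length = j + b + b ^ (κ + 1) + 3 := by rw [rg_length, hzl]
    obtain ⟨O1, hO1, hag1, hQ1, hz1, hoth1⟩ := exists_repair htr hO0 j b z Q hzQ
      (fun n w hn => hnopw n w (by rw [hlen] at hn; omega))
      (fun n hn => by
        have h1 := hT' n (by rw [hlen] at hn; omega)
        omega)
    have hreg : ∀ i b' z', (i, b') ≠ (j, b) → O1 (rg i b' z') = p.O (rg i b' z') := by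
      intro i b' z' hne
      rw [hoth1 i b' z' (fun h => hne (by
        obtain ⟨h1, h2, -⟩ := rg_inj h
        rw [h1, h2])), hoth i b' z' hne]
    have hsat : ∀ i c, p.A[i]? = some c → Sat O1 i c := by
      intro i c hic b' hb'
      by_cases hne : (i, b') = (j, b)
      · rw [Prod.mk.injEq] at hne
        obtain ⟨h1, h2⟩ := hne
        subst h1 h2
        rw [hA] at hic
        obtain rfl : (κ, β) = c := Option.some.inj hic
        exact ⟨z, hzl, hz1⟩
      · obtain ⟨z', hz', hz''⟩ := p.sat i c hic b' hb'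
        exact ⟨z', hz', by rw [hreg i b' z' hne]; exact hz''⟩
    have hagp : Ag p.m p.O O1 := hag0.trans hag1 (by rw [hlen]; omega)
    let M : ℕ := max p.m (max (Q.sup List.length + 1) ((rg j b w0).length + 1))
    have hM1 : p.m ≤ M := le_max_left _ _
    have hM2 : Q.sup List.length + 1 ≤ M := (le_max_left _ _).trans (le_max_right _ _)
    have hM3 : (rg j b w0).length + 1 ≤ M := (le_max_right _ _).trans (le_max_right _ _)
    refine ⟨⟨O1, M, p.A, hO1, hsat⟩, ⟨hM1, hagp, List.prefix_rfl⟩, b, hNb, ?_⟩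
    intro T' hTT O' hag' hred
    have hag'' : Ag M O1 O' := hag'
    have hred' : RedAt O' e κ j cf cg T b := hred.mono (hmax T' hTT)
    have hQ' : ∀ s ∈ Q, O' s = O0 s := by
      intro s hs
      rw [hag'' s (by
        have := Finset.le_sup (f := List.length) hs
        omega), hQ1 s hs]
    obtain ⟨-, hw⟩ := hread O' hQ' κ j hred'
    rw [hag'' _ (by omega), hoth1 j b w0 (fun h => hzw (rg_inj h).2.2.symm), hemp] at hw
    exact Bool.false_ne_true hw
  · refine ⟨p, Cnd.Le.refl p, b, hNb, ?_⟩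
    intro T hT
    exact absurd ⟨T, hT⟩ hS

end Pool.Agent.H45.EW
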