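import Pool.Agent.H45.EW.Defs

set_option autoImplicit false

/-! # The three changes of a legal oracle -/

namespace Pool.Agent.H45.EW

open Pool.Agent.H88.RO Tr Classical Pool.Agent.H65.EW

variable {ℓ : ℕ → ℕ} {tr : Orc → List Bool → Prop}

/-- empty the region `(j, b)` and remove all passwords from `m` on -/
theorem exists_empty (htr : Loc tr) {O : Orc} (hO : Legal ℓ tr O) (m j b : ℕ) (hb : m ≤ b) :
    ∃ O0 : Orc, Legal ℓ tr O0 ∧ Ag m O O0 ∧ (∀ z, O0 (rg j b z) = false) ∧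
      (∀ j' b' z, (j', b') ≠ (j, b) → O0 (rg j' b' z) = O (rg j' b' z)) ∧
      ∀ n w, m ≤ n → O0 (pw n w) = false := by
  set F : Orc := fun s => if (∃ z, s = rg j b z) ∨ (∃ n w, m ≤ n ∧ s = pw n w) then false
    else O s with hF
  have hlow : ∀ s : List Bool, s.length < m → F s = O s := by
    intro s hs
    simp only [hF]
    rw [if_neg]
    rintro (⟨z, rfl⟩ | ⟨n, w, hn, rfl⟩)
    · rw [rg_length] at hs; omega
    · rw [pw_length] at hs; omega
  refine ⟨Phi ℓ tr F, legal_Phi htr F, Phi_eq_of_lt htr hO hlow, fun z => ?_,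
    fun j' b' z h => ?_, fun n w hn => ?_⟩
  · rw [Phi_rg]; simp only [hF]; rw [if_pos (Or.inl ⟨z, rfl⟩)]
  · rw [Phi_rg]; simp only [hF]; rw [if_neg]
    rintro (⟨z', h1⟩ | ⟨n, w, hn, h1⟩)
    · obtain ⟨h2, h3, -⟩ := rg_inj h1
      exact h (by rw [h2, h3])
    · exact absurd h1 (rg_ne_pw _ _ _ _ _)
  · rw [Phi_pw]; simp only [hF]; rw [if_pos (Or.inr ⟨n, w, hn, rfl⟩)]

/-- put `z` into the region `(j, b)` without changing the positions in `Q`, by new passwords -/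
theorem exists_repair (htr : Loc tr) {O0 : Orc} (hO : Legal ℓ tr O0) (j b : ℕ) (z : List Bool)
    (Q : Finset (List Bool)) (hz : rg j b z ∉ Q)
    (hpw : ∀ n w, (rg j b z).length ≤ n → O0 (pw n w) = false)
    (hcard : ∀ n, (rg j b z).length ≤ n → Q.card < 2 ^ ℓ n) :
    ∃ O1 : Orc, Legal ℓ tr O1 ∧ Ag (rg j b z).length O0 O1 ∧ (∀ s ∈ Q, O1 s = O0 s) ∧
      O1 (rg j b z) = true ∧
      ∀ j' b' z', rg j' b' z' ≠ rg j b z → O1 (rg j' b' z') = O0 (rg j' b' z') := by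
  obtain ⟨W, hW1, hW2⟩ := exists_words Q hcard
  have hadd : ∀ y : List Bool, y ≠ rg j b z → (∀ n, (rg j b z).length ≤ n → y ≠ pw n (W n)) →
      addT O0 (rg j b z).length (rg j b z) W y = O0 y := by
    intro y h1 h2
    unfold addT
    rw [if_neg]
    rintro (h | ⟨n, hn, h⟩)
    · exact h1 h
    · exact h2 n hn h
  refine ⟨Phi ℓ tr (addT O0 (rg j b z).length (rg j b z) W), legal_Phi htr _, ?_, ?_, ?_, ?_⟩
  · refine Phi_eq_of_lt htr hO (fun s hs => hadd s ?_ ?_)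
    · rintro rfl; exact lt_irrefl _ hs
    · rintro n hn rfl
      rw [pw_length] at hs; omega
  · intro s hs
    obtain ⟨h1, h2⟩ := hW2 s hs
    exact repair htr hO (fun n hn w _ => hpw n w hn) rfl (fun n w => rg_ne_pw _ _ _ _ _)
      (fun w q => rg_ne_cd _ _ _ _ _) hW1 (fun h => hz (h ▸ hs)) h1 h2
  · rw [Phi_rg]
    unfold addT
    rw [if_pos (Or.inl rfl)]
  · intro j' b' z' h
    rw [Phi_rg]
    exact hadd _ h (fun n _ => rg_ne_pw _ _ _ _ _)

/-- fill the regions `(j, b)` for `b ≥ m` -/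
theorem exists_fill (htr : Loc tr) {O : Orc} (hO : Legal ℓ tr O) (m j κ : ℕ) :
    ∃ O2 : Orc, Legal ℓ tr O2 ∧ Ag m O O2 ∧ Sat O2 j (κ, m) ∧
      ∀ j' b z, j' ≠ j → O2 (rg j' b z) = O (rg j' b z) := by
  set F : Orc := fun s => if ∃ b z, m ≤ b ∧ s = rg j b z then true else O s with hF
  have hlow : ∀ s : List Bool, s.length < m → F s = O s := by
    intro s hs
    simp only [hF]
    rw [if_neg]
    rintro ⟨b, z, hb, rfl⟩
    rw [rg_length] at hs; omega
  refine ⟨Phi ℓ tr F, legal_Phi htr F, Phi_eq_of_lt htr hO hlow, fun b hb => ?_,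
    fun j' b z h => ?_⟩
  · refine ⟨List.replicate (b ^ (κ + 1)) false, by simp, ?_⟩
    rw [Phi_rg]; simp only [hF]; rw [if_pos ⟨b, _, hb, rfl⟩]
  · rw [Phi_rg]; simp only [hF]; rw [if_neg]
    rintro ⟨b', z', hb', h1⟩
    exact h (rg_inj h1).1

/-- there is a legal oracle -/
theorem exists_leg (htr : Loc tr) : ∃ O : Orc, Legal ℓ tr O :=
  ⟨Phi ℓ tr (fun _ => false), legal_Phi htr _⟩

end Pool.Agent.H45.EW
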