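import Pool.Agent.H45.EW.Lim
import Pool.Agent.H65.EW.Srch
import Pool.Agent.H93.EW.Red
import Pool.Agent.H65.EW.NumA

set_option autoImplicit false

/-! # No complete problem relative to the oracle -/

namespace Pool.Agent.H45.EW

open Pool.Agent.H88.RO Tr Classical Pool.Agent.H65.EW

/-- the time bound `t` is small compared with `2 ^ ℓ (b ^ (κ + 1))` -/
def Small (ℓ : ℕ → ℕ) (κ : ℕ) (t : ℕ → ℕ) : Prop :=
  ∀ P : Polynomial ℕ, ∃ b0, ∀ b m, b0 ≤ b → b ^ (κ + 1) ≤ m → P.eval (t b) < 2 ^ ℓ m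

variable {ℓ : ℕ → ℕ} {tr : Orc → List Bool → Prop}

theorem exists_pre {O : Orc} (T : TFNP O) : ∃ e : Pre, ∀ x y, T.IsSol x y ↔ Sol e O x y := by
  obtain ⟨τ, q, hR⟩ := exists_Rof T.polyTime
  refine ⟨(τ, q, T.p), fun x y => ?_⟩
  unfold TFNP.IsSol Sol
  rw [hR, Rof, decide_eq_true_iff]

theorem exists_no_complete (htr : Loc tr) (hℓ : ∀ n, ℓ n ≤ n) : ∃ O : Orc, Legal ℓ tr O ∧
    ∀ (T : TFNP O) (κ : ℕ), ∃ S : TFNP O, ∀ t, Small ℓ κ t → ¬ S.ReducesWithin t T := by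
  obtain ⟨O, hO, hk⟩ := exists_oracle (ℓ := ℓ) htr hℓ
  refine ⟨O, hO, fun T κ => ?_⟩
  obtain ⟨e, he⟩ := exists_pre T
  have htot : Tot e O := fun x => by
    obtain ⟨y, hy⟩ := T.total x
    exact ⟨y, (he x y).1 hy⟩
  obtain ⟨j, β, hsat, hkill⟩ := hk e htot κ
  have hr : ∀ b, (Polynomial.X ^ (κ + 1) : Polynomial ℕ).eval b = b ^ (κ + 1) := fun b => by simp
  have h : ∀ b, β ≤ b → ∃ z : List Bool,
      z.length = (Polynomial.X ^ (κ + 1) : Polynomial ℕ).eval b ∧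
        O (Pool.Agent.H65.EW.rg j b z) = true := by
    intro b hb
    obtain ⟨z, hz1, hz2⟩ := hsat b hb
    exact ⟨z, by rw [hr, hz1], hz2⟩
  refine ⟨Pool.Agent.H65.EW.SJ O j β (Polynomial.X ^ (κ + 1)) h, fun t ht => ?_⟩
  rintro ⟨cf, cg, hred⟩
  obtain ⟨b0, hb0⟩ := ht (Pol e cf cg)
  obtain ⟨b, hb, hno⟩ := hkill cf cg (max β b0)
  refine hno (t b) (fun m hm => hb0 b m ((le_max_right _ _).trans hb) hm) ?_
  obtain ⟨s, ⟨t1, ht1, h1⟩, h2⟩ := hred (List.replicate b true)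
  rw [List.length_replicate] at ht1
  refine ⟨s, ⟨t1, ht1, h1⟩, fun y hy => ?_⟩
  obtain ⟨w, ⟨t2, ht2, h3⟩, h4⟩ := h2 y ((he s y).2 hy)
  rw [List.length_replicate] at ht2
  have h5 := Pool.Agent.H65.EW.SJ_sol h
    (by rw [List.length_replicate]; exact (le_max_left _ _).trans hb) h4
  rw [List.length_replicate, hr] at h5
  exact ⟨w, ⟨t2, ht2, h3⟩, h5.1, h5.2⟩

/-- polynomial time reductions run within a time bound `C n ^ C + C` -/
theorem within_of_reduces {O : Orc} {S T : TFNP O} (h : S.Reduces T) :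
    ∃ C : ℕ, S.ReducesWithin (fun n => C * n ^ C + C) T := by
  obtain ⟨r, hr⟩ := Pool.Agent.H93.EW.reducesWithin_poly h
  obtain ⟨e, he⟩ := exists_pow_bound r
  refine ⟨e + r.eval 0 + r.eval 1 + 1, ReducesWithin_mono (fun n => ?_) hr⟩
  set C := e + r.eval 0 + r.eval 1 + 1 with hC
  rcases Nat.lt_or_ge n 2 with hn | hn
  · have h1 : r.eval n ≤ C := by
      interval_cases n
      · omega
      · omega
    exact h1.trans (Nat.le_add_left _ _)
  · have h1 : n ^ e ≤ n ^ C := Nat.pow_le_pow_right (by omega) (by omega)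
    have h2 : n ^ C ≤ C * n ^ C := Nat.le_mul_of_pos_left _ (by omega)
    have h3 := he n hn
    show r.eval n ≤ C * n ^ C + C
    omega

/-- polynomial bounds are small if `ℓ` is larger than `C log n` -/
theorem small_poly (hm : Monotone ℓ) (h : ∀ C : ℕ, ∃ n0, ∀ n, n0 ≤ n → n ^ C < 2 ^ ℓ n)
    (κ C : ℕ) : Small ℓ κ (fun n => C * n ^ C + C) := by
  intro P
  obtain ⟨e, he⟩ := exists_pow_bound
    (P.comp (Polynomial.C C * Polynomial.X ^ C + Polynomial.C C))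
  obtain ⟨n0, hn0⟩ := h e
  refine ⟨max 2 n0, fun b m hb hbm => ?_⟩
  have hb2 : 2 ≤ b := (le_max_left _ _).trans hb
  have hbn : n0 ≤ b := (le_max_right _ _).trans hb
  have h1 : b ≤ b ^ (κ + 1) := Nat.le_self_pow (by omega) b
  have h2 := he b hb2
  simp only [Polynomial.eval_comp, Polynomial.eval_add, Polynomial.eval_mul,
    Polynomial.eval_C, Polynomial.eval_pow, Polynomial.eval_X] at h2
  calc P.eval (C * b ^ C + C) ≤ b ^ e := h2
    _ ≤ (b ^ (κ + 1)) ^ e := Nat.pow_le_pow_left h1 e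
    _ < 2 ^ ℓ (b ^ (κ + 1)) := hn0 _ (hbn.trans h1)
    _ ≤ 2 ^ ℓ m := Nat.pow_le_pow_right (by norm_num) (hm hbm)

/-- exponential bounds are small if `ℓ n = n` -/
theorem small_exp (κ C : ℕ) : Small (fun n => n) κ (fun n => C * 2 ^ (n ^ κ)) := by
  intro P
  obtain ⟨A, d, h⟩ := Pool.Agent.H65.EW.poly_le_pow P
  refine ⟨A * (C + 1) ^ d + d + 1, fun b m hb hbm => ?_⟩
  have hb1 : 1 ≤ b ^ κ := Nat.one_le_pow _ _ (by omega)
  have h1 : C * 2 ^ b ^ κ + 1 ≤ (C + 1) * 2 ^ b ^ κ := by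
    have h2 : 1 ≤ 2 ^ b ^ κ := Nat.one_le_two_pow
    rw [add_mul, one_mul]
    omega
  calc P.eval (C * 2 ^ b ^ κ) ≤ A * (C * 2 ^ b ^ κ + 1) ^ d := h _
    _ ≤ A * ((C + 1) * 2 ^ b ^ κ) ^ d := Nat.mul_le_mul_left _ (Nat.pow_le_pow_left h1 _)
    _ = A * (C + 1) ^ d * 2 ^ (b ^ κ * d) := by rw [mul_pow, ← pow_mul, mul_assoc]
    _ < 2 ^ (A * (C + 1) ^ d) * 2 ^ (b ^ κ * d) :=
      Nat.mul_lt_mul_of_pos_right Nat.lt_two_pow_self (by positivity)
    _ = 2 ^ (A * (C + 1) ^ d + b ^ κ * d) := by rw [← pow_add]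
    _ ≤ 2 ^ m := by
      refine Nat.pow_le_pow_right (by norm_num) (le_trans ?_ hbm)
      have h3 : A * (C + 1) ^ d ≤ b ^ κ * (A * (C + 1) ^ d) := Nat.le_mul_of_pos_left _ hb1
      have h4 : b ^ κ * (A * (C + 1) ^ d + d) ≤ b ^ κ * b := Nat.mul_le_mul_left _ (by omega)
      rw [mul_add] at h4
      rw [pow_succ]
      omega

end Pool.Agent.H45.EW
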