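import Pool.Agent.H88.RO.Strings

set_option autoImplicit false

/-! # Unary functions which are computable without an oracle -/

namespace Pool.Agent.H45.EW

open Pool.Agent.H88.RO Tr

/-- the program in which the queries are replaced by the constant `leaf` -/
def noq : Prog → Prog
  | .id => .id
  | .nil => .nil
  | .fst => .fst
  | .snd => .snd
  | .query => .nil
  | .pair f g => .pair (noq f) (noq g)
  | .comp f g => .comp (noq f) (noq g)
  | .cond f g => .cond (noq f) (noq g)
  | .loop f => .loop (noq f)

theorem eval_noq {c : Prog} {v w : Tr} {t : ℕ} (h : Eval (fun _ => false) c v w t)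
    (O : List Bool → Bool) : Eval O (noq c) v w t := by
  induction h with
  | id v => exact Eval.id v
  | nil v => exact Eval.nil v
  | fst v => exact Eval.fst v
  | snd v => exact Eval.snd v
  | query v => exact Eval.nil v
  | pair hf hg ihf ihg => exact Eval.pair ihf ihg
  | comp hg hf ihg ihf => exact Eval.comp ihg ihf
  | condNil h hf ihf => exact Eval.condNil h ihf
  | condNode h hg ihg => exact Eval.condNode h ihg
  | loopDone h => exact Eval.loopDone h
  | loopStep h hf hl ihf ihl => exact Eval.loopStep h ihf ihl

/-- a unary function of the length is computable relative to all oracles, in unary notation on trees -/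
theorem exists_una {l : ℕ → ℕ}
    (hc : PolyTimeFun (fun _ => false) (fun x => List.replicate (l x.length) true)) :
    ∃ lT : Tr → Tr, (∀ v, lT v = num (l (len v))) ∧
      ∀ (O : List Bool → Bool) (F : Tr → Tr), FP O F → FP O (fun v => lT (F v)) := by
  refine ⟨fun v => num (l (len v)), fun _ => rfl, fun O F hF => ?_⟩
  have key : FP O (fun v => enc (List.replicate (l (len v)) true)) := by
    obtain ⟨c, q, h⟩ := hc
    obtain ⟨c1, q1, h1⟩ := FP.onesPre' (O := O) FP.id' FP.leaf'
    refine ⟨Prog.comp (noq c) c1, q1 + q + Polynomial.X + 1, fun v => ?_⟩
    obtain ⟨t1, ht1, he1⟩ := h1 v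
    obtain ⟨t2, ht2, he2⟩ := h (List.replicate (len v) true)
    rw [List.length_replicate] at ht2
    have e3 : (fun x : List Bool => List.replicate (l x.length) true) (List.replicate (len v) true) =
        List.replicate (l (len v)) true := by
      show List.replicate (l (List.replicate (len v) true).length) true = _
      rw [List.length_replicate]
    rw [e3] at he2
    have e : onesPre v leaf = enc (List.replicate (len v) true) := by
      have := onesPre_enc v []
      simpa [enc] using this
    have he1' : Eval O c1 v (enc (List.replicate (len v) true)) t1 := by
      rw [← e]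
      exact he1
    refine ⟨_, ?_, Eval.comp he1' (eval_noq he2 O)⟩
    have h3 := len_le_size v
    have h4 := poly_mono q (show len v ≤ size v by omega)
    simp only [Polynomial.eval_add, Polynomial.eval_X, Polynomial.eval_one]
    omega
  have h2 := FP.comp' (FP.ulen' key) hF
  have e2 : (fun v => ulen (enc (List.replicate (l (len (F v))) true))) = fun v => num (l (len (F v))) := by
    funext v
    rw [ulen_eq, len_enc, List.length_replicate]
  rw [← e2]
  exact h2

end Pool.Agent.H45.EW
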